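import Pool.Agent.V11193.MV.Frame

set_option autoImplicit false
open MeasureTheory Set Metric
open scoped Pointwise Topology

namespace Pool.Agent.V11193.MV

/-- `det (1 + aᵀ a)` for the `3 × 3` matrix with entries `aij`, written out. -/
noncomputable def gram (a11 a12 a13 a21 a22 a23 a31 a32 a33 : ℝ) : ℝ :=
  (1 + (a11 * a11 + a21 * a21 + a31 * a31))
      * ((1 + (a12 * a12 + a22 * a22 + a32 * a32)) * (1 + (a13 * a13 + a23 * a23 + a33 * a33))
        - (a12 * a13 + a22 * a23 + a32 * a33) * (a12 * a13 + a22 * a23 + a32 * a33))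
    - (a11 * a12 + a21 * a22 + a31 * a32)
      * ((a11 * a12 + a21 * a22 + a31 * a32) * (1 + (a13 * a13 + a23 * a23 + a33 * a33))
        - (a12 * a13 + a22 * a23 + a32 * a33) * (a11 * a13 + a21 * a23 + a31 * a33))
    + (a11 * a13 + a21 * a23 + a31 * a33)
      * ((a11 * a12 + a21 * a22 + a31 * a32) * (a12 * a13 + a22 * a23 + a32 * a33)
        - (1 + (a12 * a12 + a22 * a22 + a32 * a32)) * (a11 * a13 + a21 * a23 + a31 * a33))

lemma gram_pos (a11 a12 a13 a21 a22 a23 a31 a32 a33 : ℝ) :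
    0 < gram a11 a12 a13 a21 a22 a23 a31 a32 a33 := by
  have h : gram a11 a12 a13 a21 a22 a23 a31 a32 a33
      = 1 + (a11 ^ 2 + a12 ^ 2 + a13 ^ 2 + a21 ^ 2 + a22 ^ 2 + a23 ^ 2 + a31 ^ 2 + a32 ^ 2 + a33 ^ 2)
        + ((a11 * a22 - a12 * a21) ^ 2 + (a11 * a23 - a13 * a21) ^ 2 + (a12 * a23 - a13 * a22) ^ 2
        + (a11 * a32 - a12 * a31) ^ 2 + (a11 * a33 - a13 * a31) ^ 2 + (a12 * a33 - a13 * a32) ^ 2
        + (a21 * a32 - a22 * a31) ^ 2 + (a21 * a33 - a23 * a31) ^ 2 + (a22 * a33 - a23 * a32) ^ 2)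
        + (a11 * (a22 * a33 - a23 * a32) - a12 * (a21 * a33 - a23 * a31)
          + a13 * (a21 * a32 - a22 * a31)) ^ 2 := by
    unfold gram; ring
  rw [h]; positivity

/-- The projection orthogonal to `x`, as written in the frozen statement. -/
noncomputable def pr (x : E) : E →L[ℝ] E :=
  ContinuousLinearMap.id ℝ E - (innerSL ℝ x).smulRight x

lemma pr_apply (x v : E) : pr x v = v - (inner ℝ x v : ℝ) • x := by
  simp [pr]

lemma pr_self (x : E) (hx : ‖x‖ = 1) : pr x x = 0 := by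
  rw [pr_apply, real_inner_self_eq_norm_sq, hx]; simp

lemma pr_of_orth (x v : E) (h : inner ℝ x v = (0:ℝ)) : pr x v = v := by
  rw [pr_apply, h]; simp

lemma inner_pr (x v w : E) (h : inner ℝ w x = (0:ℝ)) : inner ℝ w (pr x v) = (inner ℝ w v : ℝ) := by
  rw [pr_apply, inner_sub_right, inner_smul_right, h]; ring

lemma inner_self_pr (x v : E) (hx : ‖x‖ = 1) : inner ℝ x (pr x v) = (0:ℝ) := by
  rw [pr_apply, inner_sub_right, inner_smul_right, real_inner_self_eq_norm_sq, hx]; ring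

/-- The Gram operator of the frozen statement. -/
noncomputable def gop (x : E) (L : E →L[ℝ] E) : E →L[ℝ] E :=
  ContinuousLinearMap.id ℝ E +
    (ContinuousLinearMap.adjoint (pr x ∘L L ∘L pr x)) ∘L (pr x ∘L L ∘L pr x)

lemma inner_gop (x : E) (L : E →L[ℝ] E) (v w : E) :
    inner ℝ v (gop x L w) = (inner ℝ v w : ℝ)
      + inner ℝ (pr x (L (pr x v))) (pr x (L (pr x w))) := by
  simp only [gop, _root_.add_apply, ContinuousLinearMap.id_apply, inner_add_right,
    ContinuousLinearMap.comp_apply, ContinuousLinearMap.adjoint_inner_right]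

/-- The determinant in the frozen statement equals the `3 × 3` Gram determinant. -/
lemma det_gop (x : E) (hx : ‖x‖ = 1) (L : E →L[ℝ] E) :
    LinearMap.det ((gop x L : E →L[ℝ] E) : E →ₗ[ℝ] E) =
      gram (inner ℝ (J1 x) (L (J1 x))) (inner ℝ (J1 x) (L (J2 x))) (inner ℝ (J1 x) (L (J3 x)))
        (inner ℝ (J2 x) (L (J1 x))) (inner ℝ (J2 x) (L (J2 x))) (inner ℝ (J2 x) (L (J3 x)))
        (inner ℝ (J3 x) (L (J1 x))) (inner ℝ (J3 x) (L (J2 x))) (inner ℝ (J3 x) (L (J3 x))) := by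
  rw [← LinearMap.det_toMatrix (frame x hx).toBasis]
  have hent : ∀ i j : Fin 4, (LinearMap.toMatrix (frame x hx).toBasis (frame x hx).toBasis
      ((gop x L : E →L[ℝ] E) : E →ₗ[ℝ] E)) i j
      = inner ℝ (frameVec x i) (gop x L (frameVec x j)) := by
    intro i j
    rw [LinearMap.toMatrix_apply, OrthonormalBasis.coe_toBasis_repr_apply,
      OrthonormalBasis.repr_apply_apply, OrthonormalBasis.coe_toBasis, frame_apply, frame_apply]
    rfl
  have e1 : pr x (J1 x) = J1 x := pr_of_orth _ _ (i01 x)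
  have e2 : pr x (J2 x) = J2 x := pr_of_orth _ _ (i02 x)
  have e3 : pr x (J3 x) = J3 x := pr_of_orth _ _ (i03 x)
  have c1 : inner ℝ (J1 x) x = (0:ℝ) := (real_inner_comm _ _).trans (i01 x)
  have c2 : inner ℝ (J2 x) x = (0:ℝ) := (real_inner_comm _ _).trans (i02 x)
  have c3 : inner ℝ (J3 x) x = (0:ℝ) := (real_inner_comm _ _).trans (i03 x)
  have c21 : inner ℝ (J2 x) (J1 x) = (0:ℝ) := (real_inner_comm _ _).trans (i12 x)
  have c31 : inner ℝ (J3 x) (J1 x) = (0:ℝ) := (real_inner_comm _ _).trans (i13 x)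
  have c32 : inner ℝ (J3 x) (J2 x) = (0:ℝ) := (real_inner_comm _ _).trans (i23 x)
  have s0 : inner ℝ x x = (1:ℝ) := by rw [real_inner_self_eq_norm_sq, hx]; norm_num
  have s1 : inner ℝ (J1 x) (J1 x) = (1:ℝ) := by rw [real_inner_self_eq_norm_sq, n1, hx]; norm_num
  have s2 : inner ℝ (J2 x) (J2 x) = (1:ℝ) := by rw [real_inner_self_eq_norm_sq, n2, hx]; norm_num
  have s3 : inner ℝ (J3 x) (J3 x) = (1:ℝ) := by rw [real_inner_self_eq_norm_sq, n3, hx]; norm_num
  have hpp : ∀ v w : E, inner ℝ (pr x (L v)) (pr x (L w)) =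
      (inner ℝ (J1 x) (L v) * inner ℝ (J1 x) (L w) + inner ℝ (J2 x) (L v) * inner ℝ (J2 x) (L w)
        + inner ℝ (J3 x) (L v) * inner ℝ (J3 x) (L w) : ℝ) := by
    intro v w
    rw [parseval x _ _ hx, inner_self_pr x _ hx, inner_pr _ _ _ c1, inner_pr _ _ _ c1,
      inner_pr _ _ _ c2, inner_pr _ _ _ c2, inner_pr _ _ _ c3, inner_pr _ _ _ c3]
    ring
  have hM : LinearMap.toMatrix (frame x hx).toBasis (frame x hx).toBasis
      ((gop x L : E →L[ℝ] E) : E →ₗ[ℝ] E) =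
      !![1, 0, 0, 0;
        0, 1 + (inner ℝ (J1 x) (L (J1 x)) * inner ℝ (J1 x) (L (J1 x))
            + inner ℝ (J2 x) (L (J1 x)) * inner ℝ (J2 x) (L (J1 x))
            + inner ℝ (J3 x) (L (J1 x)) * inner ℝ (J3 x) (L (J1 x))),
          inner ℝ (J1 x) (L (J1 x)) * inner ℝ (J1 x) (L (J2 x))
            + inner ℝ (J2 x) (L (J1 x)) * inner ℝ (J2 x) (L (J2 x))
            + inner ℝ (J3 x) (L (J1 x)) * inner ℝ (J3 x) (L (J2 x)),
          inner ℝ (J1 x) (L (J1 x)) * inner ℝ (J1 x) (L (J3 x))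
            + inner ℝ (J2 x) (L (J1 x)) * inner ℝ (J2 x) (L (J3 x))
            + inner ℝ (J3 x) (L (J1 x)) * inner ℝ (J3 x) (L (J3 x));
        0, inner ℝ (J1 x) (L (J2 x)) * inner ℝ (J1 x) (L (J1 x))
            + inner ℝ (J2 x) (L (J2 x)) * inner ℝ (J2 x) (L (J1 x))
            + inner ℝ (J3 x) (L (J2 x)) * inner ℝ (J3 x) (L (J1 x)),
          1 + (inner ℝ (J1 x) (L (J2 x)) * inner ℝ (J1 x) (L (J2 x))
            + inner ℝ (J2 x) (L (J2 x)) * inner ℝ (J2 x) (L (J2 x))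
            + inner ℝ (J3 x) (L (J2 x)) * inner ℝ (J3 x) (L (J2 x))),
          inner ℝ (J1 x) (L (J2 x)) * inner ℝ (J1 x) (L (J3 x))
            + inner ℝ (J2 x) (L (J2 x)) * inner ℝ (J2 x) (L (J3 x))
            + inner ℝ (J3 x) (L (J2 x)) * inner ℝ (J3 x) (L (J3 x));
        0, inner ℝ (J1 x) (L (J3 x)) * inner ℝ (J1 x) (L (J1 x))
            + inner ℝ (J2 x) (L (J3 x)) * inner ℝ (J2 x) (L (J1 x))
            + inner ℝ (J3 x) (L (J3 x)) * inner ℝ (J3 x) (L (J1 x)),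
          inner ℝ (J1 x) (L (J3 x)) * inner ℝ (J1 x) (L (J2 x))
            + inner ℝ (J2 x) (L (J3 x)) * inner ℝ (J2 x) (L (J2 x))
            + inner ℝ (J3 x) (L (J3 x)) * inner ℝ (J3 x) (L (J2 x)),
          1 + (inner ℝ (J1 x) (L (J3 x)) * inner ℝ (J1 x) (L (J3 x))
            + inner ℝ (J2 x) (L (J3 x)) * inner ℝ (J2 x) (L (J3 x))
            + inner ℝ (J3 x) (L (J3 x)) * inner ℝ (J3 x) (L (J3 x)))] := by
    have q : ∀ v w : E, pr x v = v → pr x w = w → inner ℝ v (gop x L w) = (inner ℝ v w : ℝ)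
        + (inner ℝ (J1 x) (L v) * inner ℝ (J1 x) (L w) + inner ℝ (J2 x) (L v) * inner ℝ (J2 x) (L w)
        + inner ℝ (J3 x) (L v) * inner ℝ (J3 x) (L w) : ℝ) := by
      intro v w hv hw
      rw [inner_gop, hv, hw, hpp]
    have q0l : ∀ w : E, inner ℝ x (gop x L w) = (inner ℝ x w : ℝ) := by
      intro w
      rw [inner_gop, pr_self x hx, map_zero, map_zero, inner_zero_left, add_zero]
    have q0r : ∀ v : E, inner ℝ v (gop x L x) = (inner ℝ v x : ℝ) := by
      intro v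
      rw [inner_gop, pr_self x hx, map_zero, map_zero, inner_zero_right, add_zero]
    ext i j
    rw [hent]
    fin_cases i <;> fin_cases j
    · exact (q0l _).trans s0
    · exact (q0l _).trans (i01 x)
    · exact (q0l _).trans (i02 x)
    · exact (q0l _).trans (i03 x)
    · exact (q0r _).trans c1
    · exact (q _ _ e1 e1).trans (by rw [s1]; rfl)
    · exact (q _ _ e1 e2).trans (by rw [i12 x, zero_add]; rfl)
    · exact (q _ _ e1 e3).trans (by rw [i13 x, zero_add]; rfl)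
    · exact (q0r _).trans c2
    · exact (q _ _ e2 e1).trans (by rw [c21, zero_add]; rfl)
    · exact (q _ _ e2 e2).trans (by rw [s2]; rfl)
    · exact (q _ _ e2 e3).trans (by rw [i23 x, zero_add]; rfl)
    · exact (q0r _).trans c3
    · exact (q _ _ e3 e1).trans (by rw [c31, zero_add]; rfl)
    · exact (q _ _ e3 e2).trans (by rw [c32, zero_add]; rfl)
    · exact (q _ _ e3 e3).trans (by rw [s3]; rfl)
  rw [hM]
  simp only [Matrix.det_succ_row_zero (n := 3), Fin.sum_univ_four, Matrix.det_fin_three]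
  simp [Fin.succAbove, Matrix.submatrix]
  unfold gram
  ring

end Pool.Agent.V11193.MV
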