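import Pool.Agent.V11193.MV.Euler

set_option autoImplicit false
open MeasureTheory Set Metric
open scoped Pointwise Topology

namespace Pool.Agent.V11193.MV

/-- `⟨J₁y, η y⟩`. -/
noncomputable def g1 (η : E → E) (y : E) : ℝ := inner ℝ (J1 y) (η y)
/-- `⟨J₂y, η y⟩`. -/
noncomputable def g2 (η : E → E) (y : E) : ℝ := inner ℝ (J2 y) (η y)
/-- `⟨J₃y, η y⟩`. -/
noncomputable def g3 (η : E → E) (y : E) : ℝ := inner ℝ (J3 y) (η y)

/-- First coefficient of the flux field. -/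
noncomputable def f1 (η : E → E) (y : E) : ℝ := (-U1 y * g2 η y - U2 y * g3 η y) * W y
/-- Second coefficient of the flux field. -/
noncomputable def f2 (η : E → E) (y : E) : ℝ :=
  (-(1 + 2 * U3 y ^ 2) * U1 y * g1 η y + 2 * U1 y * U2 y * U3 y * g2 η y
    + U3 y * (1 + 2 * U3 y ^ 2 + 2 * U2 y ^ 2) * g3 η y) * W y
/-- Third coefficient of the flux field. -/
noncomputable def f3 (η : E → E) (y : E) : ℝ :=
  (-(1 + 2 * U3 y ^ 2) * U2 y * g1 η y - U3 y * (1 + 2 * U3 y ^ 2 + 2 * U1 y ^ 2) * g2 η y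
    - 2 * U1 y * U2 y * U3 y * g3 η y) * W y

lemma fderiv_line (f : E → ℝ) (x v : E) (hf : DifferentiableAt ℝ f x) (d : ℝ)
    (h : HasDerivAt (fun t : ℝ => f (x + t • v)) d 0) : fderiv ℝ f x v = d := by
  have h3 : HasFDerivAt f (fderiv ℝ f x) (x + (0:ℝ) • v) := by simpa using hf.hasFDerivAt
  exact (h3.comp_hasDerivAt (0 : ℝ) (hasDerivAt_line x v)).unique h

lemma hf1 (η : E → E) (x : E) (hη : DifferentiableAt ℝ η x) :
    HasDerivAt (fun t : ℝ => f1 η (x + t • J1 x))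
      ((2 * U2 x * g2 η x - U1 x * (-g3 η x + inner ℝ (J2 x) (fderiv ℝ η x (J1 x)))
        - (2 * U1 x * g3 η x + U2 x * (g2 η x + inner ℝ (J3 x) (fderiv ℝ η x (J1 x))))) * W x) 0 := by
  have a2 := hg J2 η x (J1 x) hη
  have a3 := hg J3 η x (J1 x) hη
  rw [J21, inner_neg_left] at a2
  rw [J31] at a3
  have h := (((hU11 x).neg.mul a2).sub ((hU21 x).mul a3)).mul (hW x _ _ (hU31 x))
  refine HasDerivAt.congr_deriv (f := _) h ?_
  simp only [zero_smul, add_zero, Pi.sub_apply, Pi.mul_apply, Pi.neg_apply, g1, g2, g3]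
  ring

lemma hf2 (η : E → E) (x : E) (hη : DifferentiableAt ℝ η x) :
    HasDerivAt (fun t : ℝ => f2 η (x + t • J2 x))
      ((8 * U3 x * U1 x * U1 x * g1 η x - (1 + 2 * U3 x ^ 2) * (2 * U3 x) * g1 η x
        - (1 + 2 * U3 x ^ 2) * U1 x * (g3 η x + inner ℝ (J1 x) (fderiv ℝ η x (J2 x)))
        + (4 * U3 x * U2 x * U3 x - 4 * U1 x * U2 x * U1 x) * g2 η x
        + 2 * U1 x * U2 x * U3 x * (-inner ℝ x (η x) + inner ℝ (J2 x) (fderiv ℝ η x (J2 x)))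
        + (-2 * U1 x * (1 + 2 * U3 x ^ 2 + 2 * U2 x ^ 2) - 8 * U3 x * U3 x * U1 x) * g3 η x
        + U3 x * (1 + 2 * U3 x ^ 2 + 2 * U2 x ^ 2)
          * (-g1 η x + inner ℝ (J3 x) (fderiv ℝ η x (J2 x)))) * W x
      + 4 * U3 x * U1 x * W x ^ 3 * (-(1 + 2 * U3 x ^ 2) * U1 x * g1 η x
        + 2 * U1 x * U2 x * U3 x * g2 η x
        + U3 x * (1 + 2 * U3 x ^ 2 + 2 * U2 x ^ 2) * g3 η x)) 0 := by
  have a1 := hg J1 η x (J2 x) hη
  have a2 := hg J2 η x (J2 x) hη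
  have a3 := hg J3 η x (J2 x) hη
  rw [J12] at a1
  rw [J22, inner_neg_left] at a2
  rw [J32, inner_neg_left] at a3
  have u1 := hU12 x
  have u2 := hU22 x
  have u3 := hU32 x
  have q : HasDerivAt (fun t : ℝ => 1 + 2 * U3 (x + t • J2 x) ^ 2) (2 * (2 * U3 x * (-2 * U1 x))) 0 := by
    refine (((u3.pow 2).const_mul 2).const_add 1).congr_deriv ?_
    simp
  have q2 : HasDerivAt (fun t : ℝ => 1 + 2 * U3 (x + t • J2 x) ^ 2 + 2 * U2 (x + t • J2 x) ^ 2)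
      (2 * (2 * U3 x * (-2 * U1 x)) + 0) 0 := by
    refine (q.add ((u2.pow 2).const_mul 2)).congr_deriv ?_
    simp
  have h := ((((q.neg.mul u1).mul a1).add (((((hasDerivAt_const (0:ℝ) (2:ℝ)).mul u1).mul u2).mul u3).mul a2)).add
    ((u3.mul q2).mul a3)).mul (hW x _ _ u3)
  refine HasDerivAt.congr_deriv (f := _) h ?_
  simp only [zero_smul, add_zero, Pi.sub_apply, Pi.mul_apply, Pi.neg_apply, Pi.add_apply, g1, g2, g3]
  ring

lemma hf3 (η : E → E) (x : E) (hη : DifferentiableAt ℝ η x) :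
    HasDerivAt (fun t : ℝ => f3 η (x + t • J3 x))
      ((8 * U3 x * U2 x * U2 x * g1 η x - (1 + 2 * U3 x ^ 2) * (2 * U3 x) * g1 η x
        - (1 + 2 * U3 x ^ 2) * U2 x * (-g2 η x + inner ℝ (J1 x) (fderiv ℝ η x (J3 x)))
        - (-2 * U2 x * (1 + 2 * U3 x ^ 2 + 2 * U1 x ^ 2) - 8 * U3 x * U3 x * U2 x) * g2 η x
        - U3 x * (1 + 2 * U3 x ^ 2 + 2 * U1 x ^ 2)
          * (g1 η x + inner ℝ (J2 x) (fderiv ℝ η x (J3 x)))
        - (4 * U1 x * U3 x * U3 x - 4 * U1 x * U2 x * U2 x) * g3 η x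
        - 2 * U1 x * U2 x * U3 x * (-inner ℝ x (η x) + inner ℝ (J3 x) (fderiv ℝ η x (J3 x)))) * W x
      + 4 * U3 x * U2 x * W x ^ 3 * (-(1 + 2 * U3 x ^ 2) * U2 x * g1 η x
        - U3 x * (1 + 2 * U3 x ^ 2 + 2 * U1 x ^ 2) * g2 η x
        - 2 * U1 x * U2 x * U3 x * g3 η x)) 0 := by
  have a1 := hg J1 η x (J3 x) hη
  have a2 := hg J2 η x (J3 x) hη
  have a3 := hg J3 η x (J3 x) hη
  rw [J13, inner_neg_left] at a1
  rw [J23] at a2
  rw [J33, inner_neg_left] at a3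
  have u1 := hU13 x
  have u2 := hU23 x
  have u3 := hU33 x
  have q : HasDerivAt (fun t : ℝ => 1 + 2 * U3 (x + t • J3 x) ^ 2) (2 * (2 * U3 x * (-2 * U2 x))) 0 := by
    refine (((u3.pow 2).const_mul 2).const_add 1).congr_deriv ?_
    simp
  have q2 : HasDerivAt (fun t : ℝ => 1 + 2 * U3 (x + t • J3 x) ^ 2 + 2 * U1 (x + t • J3 x) ^ 2)
      (2 * (2 * U3 x * (-2 * U2 x)) + 0) 0 := by
    refine (q.add ((u1.pow 2).const_mul 2)).congr_deriv ?_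
    simp
  have h := ((((q.neg.mul u2).mul a1).sub ((u3.mul q2).mul a2)).sub
    (((((hasDerivAt_const (0:ℝ) (2:ℝ)).mul u1).mul u2).mul u3).mul a3)).mul (hW x _ _ u3)
  refine HasDerivAt.congr_deriv (f := _) h ?_
  simp only [zero_smul, add_zero, Pi.sub_apply, Pi.mul_apply, Pi.neg_apply, Pi.add_apply, g1, g2, g3]
  ring

/-- The Euler–Lagrange identity: the flux field has divergence equal to the first variation density. -/
lemma divergence_identity (η : E → E) (x : E) (hx : ‖x‖ = 1) (hη : DifferentiableAt ℝ η x)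
    (h0 : inner ℝ x (η x) = (0:ℝ))
    (hV : U3 x * g1 η x - U2 x * g2 η x + U1 x * g3 η x = 0)
    (d1 : DifferentiableAt ℝ (f1 η) x) (d2 : DifferentiableAt ℝ (f2 η) x)
    (d3 : DifferentiableAt ℝ (f3 η) x) :
    fderiv ℝ (f1 η) x (J1 x) + fderiv ℝ (f2 η) x (J2 x) + fderiv ℝ (f3 η) x (J3 x)
      = W x * (-(1 + 2 * U3 x ^ 2) * U1 x * inner ℝ (J1 x) (fderiv ℝ η x (J2 x))
        - (1 + 2 * U3 x ^ 2) * U2 x * inner ℝ (J1 x) (fderiv ℝ η x (J3 x))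
        - U1 x * inner ℝ (J2 x) (fderiv ℝ η x (J1 x))
        + 2 * U1 x * U2 x * U3 x * inner ℝ (J2 x) (fderiv ℝ η x (J2 x))
        - U3 x * (1 + 2 * U3 x ^ 2 + 2 * U1 x ^ 2) * inner ℝ (J2 x) (fderiv ℝ η x (J3 x))
        - U2 x * inner ℝ (J3 x) (fderiv ℝ η x (J1 x))
        + U3 x * (1 + 2 * U3 x ^ 2 + 2 * U2 x ^ 2) * inner ℝ (J3 x) (fderiv ℝ η x (J2 x))
        - 2 * U1 x * U2 x * U3 x * inner ℝ (J3 x) (fderiv ℝ η x (J3 x))) := by
  rw [fderiv_line _ _ _ d1 _ (hf1 η x hη), fderiv_line _ _ _ d2 _ (hf2 η x hη),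
    fderiv_line _ _ _ d3 _ (hf3 η x hη), h0]
  have hu := U_sq x hx
  have hw := W_sq x
  generalize (inner ℝ (J1 x) (fderiv ℝ η x (J2 x)) : ℝ) = b12
  generalize (inner ℝ (J1 x) (fderiv ℝ η x (J3 x)) : ℝ) = b13
  generalize (inner ℝ (J2 x) (fderiv ℝ η x (J1 x)) : ℝ) = b21
  generalize (inner ℝ (J2 x) (fderiv ℝ η x (J2 x)) : ℝ) = b22
  generalize (inner ℝ (J2 x) (fderiv ℝ η x (J3 x)) : ℝ) = b23
  generalize (inner ℝ (J3 x) (fderiv ℝ η x (J1 x)) : ℝ) = b31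
  generalize (inner ℝ (J3 x) (fderiv ℝ η x (J2 x)) : ℝ) = b32
  generalize (inner ℝ (J3 x) (fderiv ℝ η x (J3 x)) : ℝ) = b33
  generalize U1 x = u1 at *
  generalize U2 x = u2 at *
  generalize U3 x = u3 at *
  generalize W x = w at *
  generalize g1 η x = y1 at *
  generalize g2 η x = y2 at *
  generalize g3 η x = y3 at *
  have hw3 : w ^ 3 * (1 + 2 * u3 ^ 2) = w := by linear_combination w * hw
  -- the `W³` terms
  have key : 4 * u3 * u1 * w ^ 3 * (-(1 + 2 * u3 ^ 2) * u1 * y1 + 2 * u1 * u2 * u3 * y2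
        + u3 * (1 + 2 * u3 ^ 2 + 2 * u2 ^ 2) * y3)
      + 4 * u3 * u2 * w ^ 3 * (-(1 + 2 * u3 ^ 2) * u2 * y1
        - u3 * (1 + 2 * u3 ^ 2 + 2 * u1 ^ 2) * y2 - 2 * u1 * u2 * u3 * y3)
      = w * (-4 * u3 * (u1 ^ 2 + u2 ^ 2) * y1 - 4 * u2 * u3 ^ 2 * y2 + 4 * u1 * u3 ^ 2 * y3) := by
    linear_combination (-4 * u3 * (u1 ^ 2 + u2 ^ 2) * y1 - 4 * u2 * u3 ^ 2 * y2
      + 4 * u1 * u3 ^ 2 * y3) * hw3
  linear_combination key + (w * (-4 - 14 * u3 ^ 2)) * hV + w * (2 * u3 * y1) * hu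
end Pool.Agent.V11193.MV
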