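import Pool.Agent.V11193.MV.Det

set_option autoImplicit false
open MeasureTheory Set Metric
open scoped Pointwise Topology

namespace Pool.Agent.V11193.MV

lemma gram_val (r u1 u2 u3 : ℝ) (hr : r ^ 2 = 1 / 3) (hu : u1 ^ 2 + u2 ^ 2 + u3 ^ 2 = 1) :
    gram 0 (r * (-3 * u1)) (r * (-3 * u2)) (r * (-u1)) 0 (r * (-3 * u3)) (r * (-u2)) (r * (3 * u3)) 0
      = 16 / 3 * (1 + 2 * u3 ^ 2) := by
  unfold gram
  grind

lemma gram_deriv (r u1 u2 u3 b11 b12 b13 b21 b22 b23 b31 b32 b33 : ℝ) (hr : r ^ 2 = 1 / 3)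
    (hu : u1 ^ 2 + u2 ^ 2 + u3 ^ 2 = 1)
    (a11 a12 a13 a21 a22 a23 a31 a32 a33 : ℝ → ℝ)
    (h11 : HasDerivAt a11 b11 0) (h12 : HasDerivAt a12 b12 0) (h13 : HasDerivAt a13 b13 0)
    (h21 : HasDerivAt a21 b21 0) (h22 : HasDerivAt a22 b22 0) (h23 : HasDerivAt a23 b23 0)
    (h31 : HasDerivAt a31 b31 0) (h32 : HasDerivAt a32 b32 0) (h33 : HasDerivAt a33 b33 0)
    (v11 : a11 0 = 0) (v12 : a12 0 = r * (-3 * u1)) (v13 : a13 0 = r * (-3 * u2))
    (v21 : a21 0 = r * (-u1)) (v22 : a22 0 = 0) (v23 : a23 0 = r * (-3 * u3))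
    (v31 : a31 0 = r * (-u2)) (v32 : a32 0 = r * (3 * u3)) (v33 : a33 0 = 0) :
    HasDerivAt (fun s => gram (a11 s) (a12 s) (a13 s) (a21 s) (a22 s) (a23 s) (a31 s) (a32 s) (a33 s))
      (8 * r * (-(1 + 2 * u3 ^ 2) * u1 * b12 - (1 + 2 * u3 ^ 2) * u2 * b13
        - u1 * b21 + 2 * u1 * u2 * u3 * b22 - u3 * (1 + 2 * u3 ^ 2 + 2 * u1 ^ 2) * b23
        - u2 * b31 + u3 * (1 + 2 * u3 ^ 2 + 2 * u2 ^ 2) * b32 - 2 * u1 * u2 * u3 * b33)) 0 := by
  have m11 := (((h11.mul h11).add (h21.mul h21)).add (h31.mul h31)).const_add 1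
  have m22 := (((h12.mul h12).add (h22.mul h22)).add (h32.mul h32)).const_add 1
  have m33 := (((h13.mul h13).add (h23.mul h23)).add (h33.mul h33)).const_add 1
  have m12 := ((h11.mul h12).add (h21.mul h22)).add (h31.mul h32)
  have m13 := ((h11.mul h13).add (h21.mul h23)).add (h31.mul h33)
  have m23 := ((h12.mul h13).add (h22.mul h23)).add (h32.mul h33)
  have hh := ((m11.mul ((m22.mul m33).sub (m23.mul m23))).sub
    (m12.mul ((m12.mul m33).sub (m23.mul m13)))).add (m13.mul ((m12.mul m23).sub (m22.mul m13)))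
  refine HasDerivAt.congr_deriv (f := _) hh ?_
  simp only [v11, v12, v13, v21, v22, v23, v31, v32, v33, Pi.add_apply, Pi.mul_apply, Pi.sub_apply]
  grind

/-- First component of the Hopf map. -/
noncomputable def U1 (x : E) : ℝ := 2 * (x 0 * x 2 - x 1 * x 3)
/-- Second component of the Hopf map. -/
noncomputable def U2 (x : E) : ℝ := 2 * (x 0 * x 3 + x 1 * x 2)
/-- Third component of the Hopf map. -/
noncomputable def U3 (x : E) : ℝ := x 0 * x 0 + x 1 * x 1 - x 2 * x 2 - x 3 * x 3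

lemma U_sq (x : E) (hx : ‖x‖ = 1) : U1 x ^ 2 + U2 x ^ 2 + U3 x ^ 2 = 1 := by
  have h : x 0 ^ 2 + x 1 ^ 2 + x 2 ^ 2 + x 3 ^ 2 = 1 := by rw [← nsq, hx]; norm_num
  unfold U1 U2 U3
  have : (2 * (x 0 * x 2 - x 1 * x 3)) ^ 2 + (2 * (x 0 * x 3 + x 1 * x 2)) ^ 2
      + (x 0 * x 0 + x 1 * x 1 - x 2 * x 2 - x 3 * x 3) ^ 2
      = (x 0 ^ 2 + x 1 ^ 2 + x 2 ^ 2 + x 3 ^ 2) ^ 2 := by ring
  rw [this, h]; norm_num

lemma hasDerivAt_line (x v : E) : HasDerivAt (fun t : ℝ => x + t • v) v 0 := by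
  have h1 : HasDerivAt (fun t : ℝ => t • v) ((1 : ℝ) • v) 0 := (hasDerivAt_id (0:ℝ)).smul_const v
  simpa using h1.const_add x

lemma hasDerivAt_coord (x v : E) (i : Fin 4) : HasDerivAt (fun t : ℝ => (x + t • v) i) (v i) 0 := by
  have h1 : HasDerivAt (fun t : ℝ => t * v i) (1 * v i) 0 := (hasDerivAt_id (0:ℝ)).mul_const (v i)
  have h2 := h1.const_add (x i)
  rw [one_mul] at h2
  exact h2

lemma hU1 (x v : E) : HasDerivAt (fun t : ℝ => U1 (x + t • v))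
    (2 * (v 0 * x 2 + x 0 * v 2 - (v 1 * x 3 + x 1 * v 3))) 0 := by
  have c := hasDerivAt_coord x v
  have h := (((c 0).mul (c 2)).sub ((c 1).mul (c 3))).const_mul 2
  refine h.congr_deriv ?_
  simp

lemma hU2 (x v : E) : HasDerivAt (fun t : ℝ => U2 (x + t • v))
    (2 * (v 0 * x 3 + x 0 * v 3 + (v 1 * x 2 + x 1 * v 2))) 0 := by
  have c := hasDerivAt_coord x v
  have h := (((c 0).mul (c 3)).add ((c 1).mul (c 2))).const_mul 2
  refine h.congr_deriv ?_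
  simp

lemma hU3 (x v : E) : HasDerivAt (fun t : ℝ => U3 (x + t • v))
    (2 * (x 0 * v 0 + x 1 * v 1 - x 2 * v 2 - x 3 * v 3)) 0 := by
  have c := hasDerivAt_coord x v
  have h := ((((c 0).mul (c 0)).add ((c 1).mul (c 1))).sub ((c 2).mul (c 2))).sub ((c 3).mul (c 3))
  refine h.congr_deriv ?_
  simp
  ring

lemma hU11 (x : E) : HasDerivAt (fun t : ℝ => U1 (x + t • J1 x)) (-2 * U2 x) 0 := by
  refine (hU1 x _).congr_deriv ?_; simp [U2]; ring
lemma hU21 (x : E) : HasDerivAt (fun t : ℝ => U2 (x + t • J1 x)) (2 * U1 x) 0 := by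
  refine (hU2 x _).congr_deriv ?_; simp [U1]; ring
lemma hU31 (x : E) : HasDerivAt (fun t : ℝ => U3 (x + t • J1 x)) 0 0 := by
  refine (hU3 x _).congr_deriv ?_; simp; ring
lemma hU12 (x : E) : HasDerivAt (fun t : ℝ => U1 (x + t • J2 x)) (2 * U3 x) 0 := by
  refine (hU1 x _).congr_deriv ?_; simp [U3]; ring
lemma hU22 (x : E) : HasDerivAt (fun t : ℝ => U2 (x + t • J2 x)) 0 0 := by
  refine (hU2 x _).congr_deriv ?_; simp; ring
lemma hU32 (x : E) : HasDerivAt (fun t : ℝ => U3 (x + t • J2 x)) (-2 * U1 x) 0 := by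
  refine (hU3 x _).congr_deriv ?_; simp [U1]; ring
lemma hU13 (x : E) : HasDerivAt (fun t : ℝ => U1 (x + t • J3 x)) 0 0 := by
  refine (hU1 x _).congr_deriv ?_; simp; ring
lemma hU23 (x : E) : HasDerivAt (fun t : ℝ => U2 (x + t • J3 x)) (2 * U3 x) 0 := by
  refine (hU2 x _).congr_deriv ?_; simp [U3]; ring
lemma hU33 (x : E) : HasDerivAt (fun t : ℝ => U3 (x + t • J3 x)) (-2 * U2 x) 0 := by
  refine (hU3 x _).congr_deriv ?_; simp [U2]; ring

/-- Derivative of `⟨P y, η y⟩` along a line. -/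
lemma hg (P : E →L[ℝ] E) (η : E → E) (x v : E) (hη : DifferentiableAt ℝ η x) :
    HasDerivAt (fun t : ℝ => (inner ℝ (P (x + t • v)) (η (x + t • v)) : ℝ))
      ((inner ℝ (P v) (η x) : ℝ) + inner ℝ (P x) (fderiv ℝ η x v)) 0 := by
  have h1 : HasDerivAt (fun t : ℝ => P (x + t • v)) (P v) 0 :=
    P.hasFDerivAt.comp_hasDerivAt (0 : ℝ) (hasDerivAt_line x v)
  have h2 : HasDerivAt (fun t : ℝ => η (x + t • v)) (fderiv ℝ η x v) 0 := by
    have h3 : HasFDerivAt η (fderiv ℝ η x) (x + (0:ℝ) • v) := by simpa using hη.hasFDerivAt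
    exact h3.comp_hasDerivAt (0 : ℝ) (hasDerivAt_line x v)
  have h4 := h1.inner ℝ h2
  refine h4.congr_deriv ?_
  simp only [zero_smul, add_zero]
  ring

/-- The weight `(1 + 2 u₃²)^{-1/2}`. -/
noncomputable def W (x : E) : ℝ := (Real.sqrt (1 + 2 * U3 x ^ 2))⁻¹

lemma W_pos (x : E) : 0 < W x := by unfold W; positivity

lemma W_sq (x : E) : W x ^ 2 * (1 + 2 * U3 x ^ 2) = 1 := by
  unfold W
  have h : 0 < 1 + 2 * U3 x ^ 2 := by positivity
  rw [inv_pow, Real.sq_sqrt h.le]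
  field_simp

lemma hW (x v : E) (d : ℝ) (h : HasDerivAt (fun t : ℝ => U3 (x + t • v)) d 0) :
    HasDerivAt (fun t : ℝ => W (x + t • v)) (-2 * U3 x * d * W x ^ 3) 0 := by
  have h1 : HasDerivAt (fun t : ℝ => 1 + 2 * U3 (x + t • v) ^ 2)
      (2 * (2 * U3 x * d)) 0 := by
    have := ((h.pow 2).const_mul 2).const_add 1
    refine this.congr_deriv ?_
    simp
  have hp : 0 < 1 + 2 * U3 x ^ 2 := by positivity
  have h2 := (h1.sqrt (by simp; positivity)).inv (by simp; positivity)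
  refine h2.congr_deriv ?_
  simp only [zero_smul, add_zero]
  unfold W
  have hs : 0 < Real.sqrt (1 + 2 * U3 x ^ 2) := by positivity
  have hs2 : Real.sqrt (1 + 2 * U3 x ^ 2) ^ 2 = 1 + 2 * U3 x ^ 2 := Real.sq_sqrt hp.le
  field_simp
  try ring

end Pool.Agent.V11193.MV
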