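import Pool.Agent.V11193.MV.Divg

set_option autoImplicit false
open MeasureTheory Set Metric
open scoped Pointwise Topology

namespace Pool.Agent.V11193.MV

/-- The length of the field. -/
noncomputable def rr : ℝ := (Real.sqrt 3)⁻¹

lemma rr_pos : 0 < rr := by unfold rr; positivity
lemma rr_sq : rr ^ 2 = 1 / 3 := by
  unfold rr
  rw [inv_pow, Real.sq_sqrt (by norm_num)]; norm_num

/-- The unit field `V(z,w) = (i(|z|²-3|w|²)z, i(3|z|²-|w|²)w)`. -/
noncomputable def V (x : E) : E := U3 x • J1 x - U2 x • J2 x + U1 x • J3 x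

/-- The `r`-minimal field. -/
noncomputable def sig (x : E) : E := rr • V x

lemma contDiff_coord (i : Fin 4) {n : WithTop ℕ∞} : ContDiff ℝ n (fun x : E => x i) :=
  (EuclideanSpace.proj i : E →L[ℝ] ℝ).contDiff

lemma contDiff_U1 {n : WithTop ℕ∞} : ContDiff ℝ n U1 := by
  unfold U1
  exact contDiff_const.mul (((contDiff_coord 0).mul (contDiff_coord 2)).sub
    ((contDiff_coord 1).mul (contDiff_coord 3)))
lemma contDiff_U2 {n : WithTop ℕ∞} : ContDiff ℝ n U2 := by
  unfold U2
  exact contDiff_const.mul (((contDiff_coord 0).mul (contDiff_coord 3)).add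
    ((contDiff_coord 1).mul (contDiff_coord 2)))
lemma contDiff_U3 {n : WithTop ℕ∞} : ContDiff ℝ n U3 := by
  unfold U3
  exact ((((contDiff_coord 0).mul (contDiff_coord 0)).add
    ((contDiff_coord 1).mul (contDiff_coord 1))).sub ((contDiff_coord 2).mul (contDiff_coord 2))).sub
    ((contDiff_coord 3).mul (contDiff_coord 3))

lemma contDiff_W {n : WithTop ℕ∞} : ContDiff ℝ n W := by
  unfold W
  have h : ContDiff ℝ n (fun x : E => 1 + 2 * U3 x ^ 2) :=
    contDiff_const.add (contDiff_const.mul (contDiff_U3.pow 2))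
  refine (h.sqrt fun x => ?_).inv fun x => ?_
  · positivity
  · positivity

lemma contDiff_V {n : WithTop ℕ∞} : ContDiff ℝ n V := by
  unfold V
  exact ((contDiff_U3.smul J1.contDiff).sub (contDiff_U2.smul J2.contDiff)).add
    (contDiff_U1.smul J3.contDiff)

lemma contDiff_sig {n : WithTop ℕ∞} : ContDiff ℝ n sig := by
  unfold sig
  exact contDiff_V.const_smul rr

lemma inner_x_V (x : E) : inner ℝ x (V x) = (0:ℝ) := by
  unfold V
  rw [inner_add_right, inner_sub_right, inner_smul_right, inner_smul_right, inner_smul_right,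
    i01, i02, i03]
  ring

lemma inner_sig (x y : E) : inner ℝ (sig x) y
    = rr * (U3 x * inner ℝ (J1 x) y - U2 x * inner ℝ (J2 x) y + U1 x * inner ℝ (J3 x) y : ℝ) := by
  unfold sig V
  rw [inner_smul_left, inner_add_left, inner_sub_left, inner_smul_left, inner_smul_left,
    inner_smul_left]
  simp

lemma norm_sig (x : E) (hx : ‖x‖ = 1) : ‖sig x‖ = rr := by
  have h : ‖sig x‖ ^ 2 = rr ^ 2 := by
    rw [← real_inner_self_eq_norm_sq, inner_sig]
    have e1 : inner ℝ (J1 x) (sig x) = rr * U3 x := by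
      rw [real_inner_comm, inner_sig, real_inner_self_eq_norm_sq, n1, hx,
        real_inner_comm, i12, real_inner_comm, i13]; ring
    have e2 : inner ℝ (J2 x) (sig x) = -(rr * U2 x) := by
      rw [real_inner_comm, inner_sig, real_inner_self_eq_norm_sq, n2, hx,
        i12, real_inner_comm, i23]; ring
    have e3 : inner ℝ (J3 x) (sig x) = rr * U1 x := by
      rw [real_inner_comm, inner_sig, real_inner_self_eq_norm_sq, n3, hx,
        i13, i23]; ring
    rw [e1, e2, e3]
    have := U_sq x hx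
    linear_combination rr ^ 2 * this
  exact (sq_eq_sq₀ (norm_nonneg _) rr_pos.le).1 h

lemma inner_x_sig (x : E) : inner ℝ x (sig x) = (0:ℝ) := by
  unfold sig; rw [inner_smul_right, inner_x_V]; ring

lemma hJ (P : E →L[ℝ] E) (x v : E) : HasDerivAt (fun t : ℝ => P (x + t • v)) (P v) 0 :=
  P.hasFDerivAt.comp_hasDerivAt (0 : ℝ) (hasDerivAt_line x v)

/-- Derivative of the field along a line. -/
lemma hsig (x v : E) (d1 d2 d3 : ℝ) (h1 : HasDerivAt (fun t : ℝ => U1 (x + t • v)) d1 0)
    (h2 : HasDerivAt (fun t : ℝ => U2 (x + t • v)) d2 0)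
    (h3 : HasDerivAt (fun t : ℝ => U3 (x + t • v)) d3 0) :
    fderiv ℝ sig x v = rr • ((U3 x • J1 v + d3 • J1 x) - (U2 x • J2 v + d2 • J2 x)
      + (U1 x • J3 v + d1 • J3 x)) := by
  have h := (((h3.smul (hJ J1 x v)).sub (h2.smul (hJ J2 x v))).add (h1.smul (hJ J3 x v))).const_smul rr
  have hs : HasDerivAt (fun t : ℝ => sig (x + t • v)) (fderiv ℝ sig x v) 0 := by
    have hd : HasFDerivAt sig (fderiv ℝ sig x) (x + (0:ℝ) • v) := by
      simpa using ((contDiff_sig (n := 1)).differentiable (by norm_num) x).hasFDerivAt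
    exact HasFDerivAt.comp_hasDerivAt (l := sig) (f := fun t : ℝ => x + t • v) (0 : ℝ) hd
      (hasDerivAt_line x v)
  have := hs.unique h
  rw [this]
  simp only [zero_smul, add_zero]

/-- If two differentiable maps agree on the sphere, their derivatives agree in the direction `Jx`. -/
lemma fderiv_eq_of_eqOn (J : E →L[ℝ] E) (hJ : ∀ x, J (J x) = -x) (hi : ∀ x, inner ℝ x (J x) = 0)
    (hn : ∀ x, ‖J x‖ = ‖x‖) (f g : E → E) (hf : Differentiable ℝ f) (hg : Differentiable ℝ g)
    (hfg : ∀ x ∈ sphere (0 : E) 1, f x = g x) (x : E) (hx : ‖x‖ = 1) :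
    fderiv ℝ f x (J x) = fderiv ℝ g x (J x) := by
  have hc := hasDerivAt_rot J x
  have h1 : HasDerivAt (fun t : ℝ => f (Real.cos t • x + Real.sin t • J x)) (fderiv ℝ f x (J x)) 0 := by
    have : HasFDerivAt f (fderiv ℝ f x) (Real.cos 0 • x + Real.sin 0 • J x) := by
      simpa using (hf x).hasFDerivAt
    exact this.comp_hasDerivAt (0:ℝ) hc
  have h2 : HasDerivAt (fun t : ℝ => g (Real.cos t • x + Real.sin t • J x)) (fderiv ℝ g x (J x)) 0 := by
    have : HasFDerivAt g (fderiv ℝ g x) (Real.cos 0 • x + Real.sin 0 • J x) := by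
      simpa using (hg x).hasFDerivAt
    exact this.comp_hasDerivAt (0:ℝ) hc
  have h3 : (fun t : ℝ => f (Real.cos t • x + Real.sin t • J x))
      = fun t : ℝ => g (Real.cos t • x + Real.sin t • J x) := by
    funext t
    apply hfg
    have := (rot J hJ hi hn t).norm_map x
    rw [rot_apply] at this
    simp [this, hx]
  rw [h3] at h1
  exact h1.unique h2

end Pool.Agent.V11193.MV
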