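import Pool.Agent.V11193.MV.Variation

set_option autoImplicit false
open MeasureTheory Set Metric
open scoped Pointwise Topology

namespace Pool.Agent.V11193.MV

lemma contDiff_g (P : E →L[ℝ] E) (η : E → E) (hη : ContDiff ℝ 1 η) :
    ContDiff ℝ 1 (fun y => (inner ℝ (P y) (η y) : ℝ)) := P.contDiff.inner ℝ hη

lemma contDiff_f1 (η : E → E) (hη : ContDiff ℝ 1 η) : ContDiff ℝ 1 (f1 η) := by
  unfold f1
  have h2 : ContDiff ℝ 1 (g2 η) := contDiff_g J2 η hη
  have h3 : ContDiff ℝ 1 (g3 η) := contDiff_g J3 η hη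
  have u1 := contDiff_U1 (n := 1)
  have u2 := contDiff_U2 (n := 1)
  have w := contDiff_W (n := 1)
  fun_prop

lemma contDiff_f2 (η : E → E) (hη : ContDiff ℝ 1 η) : ContDiff ℝ 1 (f2 η) := by
  unfold f2
  have h1 : ContDiff ℝ 1 (g1 η) := contDiff_g J1 η hη
  have h2 : ContDiff ℝ 1 (g2 η) := contDiff_g J2 η hη
  have h3 : ContDiff ℝ 1 (g3 η) := contDiff_g J3 η hη
  have u1 := contDiff_U1 (n := 1)
  have u2 := contDiff_U2 (n := 1)
  have u3 := contDiff_U3 (n := 1)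
  have w := contDiff_W (n := 1)
  fun_prop

lemma contDiff_f3 (η : E → E) (hη : ContDiff ℝ 1 η) : ContDiff ℝ 1 (f3 η) := by
  unfold f3
  have h1 : ContDiff ℝ 1 (g1 η) := contDiff_g J1 η hη
  have h2 : ContDiff ℝ 1 (g2 η) := contDiff_g J2 η hη
  have h3 : ContDiff ℝ 1 (g3 η) := contDiff_g J3 η hη
  have u1 := contDiff_U1 (n := 1)
  have u2 := contDiff_U2 (n := 1)
  have u3 := contDiff_U3 (n := 1)
  have w := contDiff_W (n := 1)
  fun_prop

lemma integrable_killing (J : E →L[ℝ] E) (f : E → ℝ) (hf : ContDiff ℝ 1 f) :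
    Integrable (fun x : sphere (0 : E) 1 => fderiv ℝ f (x : E) (J (x : E))) mu := by
  have hc : Continuous (fun x : E => fderiv ℝ f x (J x)) :=
    (hf.continuous_fderiv (by norm_num)).clm_apply J.continuous
  exact (hc.comp continuous_subtype_val).integrable_of_hasCompactSupport
    (HasCompactSupport.of_compactSpace _)

/-- The field `sig` is volume-critical. -/
theorem critical (Φ : ℝ → E → E)
    (hΦ : ContDiff ℝ ((⊤ : ℕ∞) : WithTop ℕ∞) (fun p : ℝ × E => Φ p.1 p.2))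
    (h0 : ∀ x ∈ sphere (0 : E) 1, Φ 0 x = sig x)
    (hc : ∀ t : ℝ, ∀ x ∈ sphere (0 : E) 1, ‖Φ t x‖ = rr ∧ inner ℝ x (Φ t x) = (0:ℝ)) :
    deriv (fun t : ℝ => ∫ x : sphere (0 : E) 1, Real.sqrt (LinearMap.det
      ((gop (x : E) (fderiv ℝ (Φ t) (x : E)) : E →L[ℝ] E) : E →ₗ[ℝ] E)) ∂mu) 0 = 0 := by
  have hGG := contDiff_GG (fun p : ℝ × E => Φ p.1 p.2) hΦ
  have hfun : (fun t : ℝ => ∫ x : sphere (0 : E) 1, Real.sqrt (LinearMap.det
      ((gop (x : E) (fderiv ℝ (Φ t) (x : E)) : E →L[ℝ] E) : E →ₗ[ℝ] E)) ∂mu)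
      = fun t : ℝ => ∫ x : sphere (0 : E) 1, GG (fun p : ℝ × E => Φ p.1 p.2) (t, (x : E)) ∂mu := by
    funext t
    refine integral_congr_ae (Filter.Eventually.of_forall fun x => ?_)
    have hx : ‖(x : E)‖ = 1 := by simpa using x.2
    show Real.sqrt _ = Real.sqrt _
    rw [det_gop (x : E) hx]
    have hs := fun v : E => fderiv_slice (fun p : ℝ × E => Φ p.1 p.2) hΦ t (x : E) v
    have hs' : ∀ v : E, fderiv ℝ (Φ t) (x : E) v
        = fderiv ℝ (fun p : ℝ × E => Φ p.1 p.2) (t, (x : E)) (0, v) := hs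
    simp only [ent, hs']
  rw [hfun, (hasDerivAt_sphere _ hGG).deriv]
  set Ψ : ℝ × E → E := fun p => Φ p.1 p.2 with hΨdef
  have hη : ContDiff ℝ 1 (eta Ψ) := contDiff_eta Ψ hΦ
  have hf1 := contDiff_f1 (eta Ψ) hη
  have hf2 := contDiff_f2 (eta Ψ) hη
  have hf3 := contDiff_f3 (eta Ψ) hη
  have hpt : ∀ x : sphere (0 : E) 1, fderiv ℝ (GG Ψ) (0, (x : E)) (1, 0)
      = fderiv ℝ (f1 (eta Ψ)) (x : E) (J1 (x : E)) + fderiv ℝ (f2 (eta Ψ)) (x : E) (J2 (x : E))
        + fderiv ℝ (f3 (eta Ψ)) (x : E) (J3 (x : E)) := by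
    intro x
    have hx : ‖(x : E)‖ = 1 := by simpa using x.2
    have hd := hasDerivAt_Ψ Ψ hΦ (x : E)
    have hx0 : inner ℝ (x : E) (eta Ψ (x : E)) = (0:ℝ) := by
      have h1 := (hasDerivAt_const (0:ℝ) (x : E)).inner ℝ hd
      have h2 : (fun t : ℝ => (inner ℝ (x : E) (Ψ (t, (x : E))) : ℝ)) = fun _ => (0:ℝ) := by
        funext t; exact (hc t x x.2).2
      rw [h2] at h1
      have h3 := h1.unique (hasDerivAt_const (0:ℝ) (0:ℝ))
      simpa using h3
    have hV : U3 (x : E) * g1 (eta Ψ) (x : E) - U2 (x : E) * g2 (eta Ψ) (x : E)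
        + U1 (x : E) * g3 (eta Ψ) (x : E) = 0 := by
      have h1 := hd.inner ℝ hd
      have h2 : (fun t : ℝ => (inner ℝ (Ψ (t, (x : E))) (Ψ (t, (x : E))) : ℝ)) = fun _ => rr ^ 2 := by
        funext t
        rw [real_inner_self_eq_norm_sq]
        have := (hc t x x.2).1
        show ‖Φ t x‖ ^ 2 = _
        rw [this]
      rw [h2] at h1
      have h3 := h1.unique (hasDerivAt_const (0:ℝ) (rr ^ 2))
      have h4 : Ψ (0, (x : E)) = sig x := h0 x x.2
      rw [h4, real_inner_comm (sig (x : E)) (eta Ψ (x : E)), inner_sig] at h3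
      have h5 : rr * (U3 (x : E) * g1 (eta Ψ) (x : E) - U2 (x : E) * g2 (eta Ψ) (x : E)
        + U1 (x : E) * g3 (eta Ψ) (x : E)) = 0 := by
        unfold g1 g2 g3
        linarith
      rcases mul_eq_zero.1 h5 with h | h
      · exact absurd h rr_pos.ne'
      · exact h
    rw [hasDerivAt_GG Ψ hΦ h0 x hx]
    exact (divergence_identity (eta Ψ) x hx (hη.differentiable (by norm_num) _) hx0 hV
      (hf1.differentiable (by norm_num) _) (hf2.differentiable (by norm_num) _)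
      (hf3.differentiable (by norm_num) _)).symm
  rw [integral_congr_ae (Filter.Eventually.of_forall hpt)]
  have i1 := integrable_killing J1 _ hf1
  have i2 := integrable_killing J2 _ hf2
  have i3 := integrable_killing J3 _ hf3
  have e1 := integral_add (i1.add i2) i3
  have e2 := integral_add i1 i2
  have k1 := integral_killing J1 J11 i01 n1 _ hf1
  have k2 := integral_killing J2 J22 i02 n2 _ hf2
  have k3 := integral_killing J3 J33 i03 n3 _ hf3
  simp only [Pi.add_apply] at e1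
  rw [e1, e2, k1, k2, k3]
  norm_num

/-- The field is not of Hopf type. -/
theorem not_hopf (J : E →L[ℝ] E) (h : ∀ x ∈ sphere (0 : E) 1, sig x = rr • J x) : False := by
  have hr := rr_pos.ne'
  have h' : ∀ x ∈ sphere (0 : E) 1, V x = J x := by
    intro x hx
    have := h x hx
    unfold sig at this
    exact smul_right_injective E hr this
  have a0 : (!₂[1, 0, 0, 0] : E) ∈ sphere (0 : E) 1 := by
    rw [mem_sphere_zero_iff_norm, ← sq_eq_sq₀ (norm_nonneg _) (by norm_num), nsq]; simp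
  have a2 : (!₂[0, 0, 1, 0] : E) ∈ sphere (0 : E) 1 := by
    rw [mem_sphere_zero_iff_norm, ← sq_eq_sq₀ (norm_nonneg _) (by norm_num), nsq]; simp
  have am : (!₂[3 / 5, 0, 4 / 5, 0] : E) ∈ sphere (0 : E) 1 := by
    rw [mem_sphere_zero_iff_norm, ← sq_eq_sq₀ (norm_nonneg _) (by norm_num), nsq]; simp; norm_num
  have e : (!₂[3 / 5, 0, 4 / 5, 0] : E) = (3 / 5 : ℝ) • (!₂[1, 0, 0, 0] : E)
      + (4 / 5 : ℝ) • (!₂[0, 0, 1, 0] : E) := by
    apply ext4 <;> simp
  have hm := h' _ am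
  rw [e, map_add, map_smul, map_smul, ← h' _ a0, ← h' _ a2, ← e] at hm
  have h1 := congrArg (fun v : E => v 1) hm
  simp [V, U1, U2, U3] at h1
  norm_num at h1

end Pool.Agent.V11193.MV
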