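import Pool.Agent.V11193.MV.Meas

set_option autoImplicit false
open MeasureTheory Set Metric
open scoped Pointwise Topology

namespace Pool.Agent.V11193.MV

lemma inner4 (x y : E) : inner ℝ x y = x 0 * y 0 + x 1 * y 1 + x 2 * y 2 + x 3 * y 3 := by
  simp only [PiLp.inner_apply, Fin.sum_univ_four, RCLike.inner_apply, conj_trivial]
  ring

/-- Left multiplication by `i`. -/
noncomputable def J1 : E →L[ℝ] E := LinearMap.toContinuousLinearMap
  { toFun := fun x => !₂[-x 1, x 0, -x 3, x 2]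
    map_add' := fun x y => by
      ext i; fin_cases i <;> simp <;> ring
    map_smul' := fun c x => by
      ext i; fin_cases i <;> simp }

/-- Left multiplication by `j`. -/
noncomputable def J2 : E →L[ℝ] E := LinearMap.toContinuousLinearMap
  { toFun := fun x => !₂[-x 2, x 3, x 0, -x 1]
    map_add' := fun x y => by
      ext i; fin_cases i <;> simp <;> ring
    map_smul' := fun c x => by
      ext i; fin_cases i <;> simp }

/-- Left multiplication by `k`. -/
noncomputable def J3 : E →L[ℝ] E := LinearMap.toContinuousLinearMap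
  { toFun := fun x => !₂[-x 3, -x 2, x 1, x 0]
    map_add' := fun x y => by
      ext i; fin_cases i <;> simp <;> ring
    map_smul' := fun c x => by
      ext i; fin_cases i <;> simp }

@[simp] lemma J1_0 (x : E) : J1 x 0 = -x 1 := by simp [J1]
@[simp] lemma J1_1 (x : E) : J1 x 1 = x 0 := by simp [J1]
@[simp] lemma J1_2 (x : E) : J1 x 2 = -x 3 := by simp [J1]
@[simp] lemma J1_3 (x : E) : J1 x 3 = x 2 := by simp [J1]
@[simp] lemma J2_0 (x : E) : J2 x 0 = -x 2 := by simp [J2]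
@[simp] lemma J2_1 (x : E) : J2 x 1 = x 3 := by simp [J2]
@[simp] lemma J2_2 (x : E) : J2 x 2 = x 0 := by simp [J2]
@[simp] lemma J2_3 (x : E) : J2 x 3 = -x 1 := by simp [J2]
@[simp] lemma J3_0 (x : E) : J3 x 0 = -x 3 := by simp [J3]
@[simp] lemma J3_1 (x : E) : J3 x 1 = -x 2 := by simp [J3]
@[simp] lemma J3_2 (x : E) : J3 x 2 = x 1 := by simp [J3]
@[simp] lemma J3_3 (x : E) : J3 x 3 = x 0 := by simp [J3]

lemma ext4 {x y : E} (h0 : x 0 = y 0) (h1 : x 1 = y 1) (h2 : x 2 = y 2) (h3 : x 3 = y 3) : x = y := by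
  ext i; fin_cases i <;> assumption

lemma J11 (x : E) : J1 (J1 x) = -x := by apply ext4 <;> simp
lemma J22 (x : E) : J2 (J2 x) = -x := by apply ext4 <;> simp
lemma J33 (x : E) : J3 (J3 x) = -x := by apply ext4 <;> simp
lemma J12 (x : E) : J1 (J2 x) = J3 x := by apply ext4 <;> simp
lemma J21 (x : E) : J2 (J1 x) = -J3 x := by apply ext4 <;> simp
lemma J23 (x : E) : J2 (J3 x) = J1 x := by apply ext4 <;> simp
lemma J32 (x : E) : J3 (J2 x) = -J1 x := by apply ext4 <;> simp
lemma J31 (x : E) : J3 (J1 x) = J2 x := by apply ext4 <;> simp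
lemma J13 (x : E) : J1 (J3 x) = -J2 x := by apply ext4 <;> simp

lemma i01 (x : E) : inner ℝ x (J1 x) = 0 := by rw [inner4]; simp; ring
lemma i02 (x : E) : inner ℝ x (J2 x) = 0 := by rw [inner4]; simp; ring
lemma i03 (x : E) : inner ℝ x (J3 x) = 0 := by rw [inner4]; simp; ring
lemma i12 (x : E) : inner ℝ (J1 x) (J2 x) = 0 := by rw [inner4]; simp; ring
lemma i13 (x : E) : inner ℝ (J1 x) (J3 x) = 0 := by rw [inner4]; simp; ring
lemma i23 (x : E) : inner ℝ (J2 x) (J3 x) = 0 := by rw [inner4]; simp; ring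

lemma nsq (x : E) : ‖x‖ ^ 2 = x 0 ^ 2 + x 1 ^ 2 + x 2 ^ 2 + x 3 ^ 2 := by
  rw [← real_inner_self_eq_norm_sq, inner4]; ring

lemma n1 (x : E) : ‖J1 x‖ = ‖x‖ := by
  have : ‖J1 x‖ ^ 2 = ‖x‖ ^ 2 := by rw [nsq, nsq]; simp; ring
  exact (sq_eq_sq₀ (norm_nonneg _) (norm_nonneg _)).1 this
lemma n2 (x : E) : ‖J2 x‖ = ‖x‖ := by
  have : ‖J2 x‖ ^ 2 = ‖x‖ ^ 2 := by rw [nsq, nsq]; simp; ring
  exact (sq_eq_sq₀ (norm_nonneg _) (norm_nonneg _)).1 this
lemma n3 (x : E) : ‖J3 x‖ = ‖x‖ := by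
  have : ‖J3 x‖ ^ 2 = ‖x‖ ^ 2 := by rw [nsq, nsq]; simp; ring
  exact (sq_eq_sq₀ (norm_nonneg _) (norm_nonneg _)).1 this

/-- Parseval identity in the frame `x, J₁x, J₂x, J₃x`. -/
lemma parseval (x v w : E) (hx : ‖x‖ = 1) :
    inner ℝ v w = inner ℝ x v * inner ℝ x w + inner ℝ (J1 x) v * inner ℝ (J1 x) w
      + inner ℝ (J2 x) v * inner ℝ (J2 x) w + inner ℝ (J3 x) v * inner ℝ (J3 x) w := by
  have h : x 0 ^ 2 + x 1 ^ 2 + x 2 ^ 2 + x 3 ^ 2 = 1 := by rw [← nsq, hx]; norm_num
  simp only [inner4, J1_0, J1_1, J1_2, J1_3, J2_0, J2_1, J2_2, J2_3, J3_0, J3_1, J3_2, J3_3]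
  linear_combination (-(v 0 * w 0 + v 1 * w 1 + v 2 * w 2 + v 3 * w 3)) * h

/-- The orthonormal frame at a point of the sphere. -/
noncomputable def frameVec (x : E) : Fin 4 → E := ![x, J1 x, J2 x, J3 x]

lemma frame_on (x : E) (hx : ‖x‖ = 1) : Orthonormal ℝ (frameVec x) := by
  constructor
  · intro i
    fin_cases i
    · exact hx
    · exact (n1 x).trans hx
    · exact (n2 x).trans hx
    · exact (n3 x).trans hx
  · intro i j hij
    fin_cases i <;> fin_cases j <;> first | exact absurd rfl hij | skip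
    · exact i01 x
    · exact i02 x
    · exact i03 x
    · exact (real_inner_comm _ _).trans (i01 x)
    · exact i12 x
    · exact i13 x
    · exact (real_inner_comm _ _).trans (i02 x)
    · exact (real_inner_comm _ _).trans (i12 x)
    · exact i23 x
    · exact (real_inner_comm _ _).trans (i03 x)
    · exact (real_inner_comm _ _).trans (i13 x)
    · exact (real_inner_comm _ _).trans (i23 x)

/-- The frame as an orthonormal basis. -/
noncomputable def frame (x : E) (hx : ‖x‖ = 1) : OrthonormalBasis (Fin 4) ℝ E :=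
  OrthonormalBasis.mk (frame_on x hx) (by
    have := (frame_on x hx).linearIndependent.span_eq_top_of_card_eq_finrank (by simp)
    rw [this])

lemma frame_apply (x : E) (hx : ‖x‖ = 1) (i : Fin 4) : frame x hx i = frameVec x i := by
  simp [frame]

end Pool.Agent.V11193.MV
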