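import Mathlib

set_option autoImplicit false
open MeasureTheory Set Metric
open scoped Pointwise Topology

namespace Pool.Agent.V11193.MV

/-- The ambient space `ℝ⁴`. -/
abbrev E := EuclideanSpace ℝ (Fin 4)

/-- The surface measure on `S³` used in the frozen statement. -/
noncomputable abbrev mu : Measure (sphere (0 : E) 1) := (volume : Measure E).toSphere

/-- The homeomorphism of the sphere induced by a linear isometry. -/
noncomputable def sph (R : E ≃ₗᵢ[ℝ] E) : sphere (0 : E) 1 ≃ₜ sphere (0 : E) 1 where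
  toFun x := ⟨R x, by simp⟩
  invFun x := ⟨R.symm x, by simp⟩
  left_inv x := by ext1; simp
  right_inv x := by ext1; simp
  continuous_toFun := by
    exact Continuous.subtype_mk (R.continuous.comp continuous_subtype_val) _
  continuous_invFun := by
    exact Continuous.subtype_mk (R.symm.continuous.comp continuous_subtype_val) _

lemma sph_apply (R : E ≃ₗᵢ[ℝ] E) (x : sphere (0 : E) 1) : ((sph R x : sphere (0 : E) 1) : E) = R x := rfl

lemma mp_sph (R : E ≃ₗᵢ[ℝ] E) : MeasurePreserving (sph R) mu mu := by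
  refine ⟨(sph R).continuous.measurable, ?_⟩
  ext s hs
  rw [Measure.map_apply (sph R).continuous.measurable hs, Measure.toSphere_apply' _ hs,
    Measure.toSphere_apply' _ ((sph R).continuous.measurable hs)]
  have hset : Ioo (0 : ℝ) 1 • ((↑) '' (sph R ⁻¹' s) : Set E) = R ⁻¹' (Ioo (0 : ℝ) 1 • ((↑) '' s)) := by
    ext y
    simp only [Set.mem_smul, Set.mem_preimage, Set.mem_image]
    constructor
    · rintro ⟨c, hc, z, ⟨w, hw, rfl⟩, rfl⟩
      exact ⟨c, hc, R w, ⟨sph R w, hw, rfl⟩, by simp⟩
    · rintro ⟨c, hc, z, ⟨w, hw, rfl⟩, h⟩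
      refine ⟨c, hc, R.symm w, ⟨(sph R).symm w, ?_, rfl⟩, ?_⟩
      · simpa using hw
      · have := congrArg R.symm h
        simpa using this
  rw [hset]
  have := (R.measurePreserving).measure_preimage_equiv (f := R.toMeasurableEquiv)
    (Ioo (0 : ℝ) 1 • ((↑) '' s : Set E))
  rw [← this]
  rfl

lemma integral_sph (R : E ≃ₗᵢ[ℝ] E) (f : sphere (0 : E) 1 → ℝ) :
    ∫ x, f (sph R x) ∂mu = ∫ x, f x ∂mu :=
  (mp_sph R).integral_comp (sph R).measurableEmbedding f

/-- Differentiation under the integral sign over the sphere. -/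
lemma hasDerivAt_sphere (G : ℝ × E → ℝ) (hG : ContDiff ℝ 1 G) :
    HasDerivAt (fun s : ℝ => ∫ x : sphere (0 : E) 1, G (s, (x : E)) ∂mu)
      (∫ x : sphere (0 : E) 1, fderiv ℝ G (0, (x : E)) (1, 0) ∂mu) 0 := by
  have hd : Differentiable ℝ G := hG.differentiable (by norm_num)
  have hc' : Continuous (fderiv ℝ G) := hG.continuous_fderiv (by norm_num)
  have hcont : Continuous (fun p : ℝ × E => fderiv ℝ G p (1, 0)) := by
    exact hc'.clm_apply continuous_const
  have hK : IsCompact ((Icc (-1 : ℝ) 1) ×ˢ (sphere (0 : E) 1)) :=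
    isCompact_Icc.prod (isCompact_sphere _ _)
  obtain ⟨C, hC⟩ := hK.exists_bound_of_continuousOn hcont.continuousOn
  have hGc : ∀ s : ℝ, Continuous (fun x : sphere (0 : E) 1 => G (s, (x : E))) := fun s =>
    hG.continuous.comp (by fun_prop)
  refine (hasDerivAt_integral_of_dominated_loc_of_deriv_le (μ := mu)
    (F := fun (s : ℝ) (x : sphere (0 : E) 1) => G (s, (x : E)))
    (F' := fun (s : ℝ) (x : sphere (0 : E) 1) => fderiv ℝ G (s, (x : E)) (1, 0))
    (bound := fun _ => C) (Icc_mem_nhds (a := -1) (b := 1) (by norm_num) (by norm_num)) ?_ ?_ ?_ ?_ ?_ ?_).2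
  · exact Filter.Eventually.of_forall fun s => (hGc s).aestronglyMeasurable
  · exact (hGc 0).integrable_of_hasCompactSupport (HasCompactSupport.of_compactSpace _)
  · exact (hcont.comp (by fun_prop : Continuous fun x : sphere (0 : E) 1 => ((0 : ℝ), (x : E)))).aestronglyMeasurable
  · exact Filter.Eventually.of_forall fun x s hs => hC (s, (x : E)) ⟨hs, x.2⟩
  · exact integrable_const C
  · refine Filter.Eventually.of_forall fun x s _ => ?_
    have h1 : HasFDerivAt G (fderiv ℝ G (s, (x : E))) (s, (x : E)) := (hd _).hasFDerivAt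
    have h2 : HasDerivAt (fun s : ℝ => (s, (x : E))) ((1 : ℝ), (0 : E)) s :=
      (hasDerivAt_id s).prodMk (hasDerivAt_const s (x : E))
    exact h1.comp_hasDerivAt s h2

/-- The rotation `cos t + sin t J`. -/
noncomputable def rot (J : E →L[ℝ] E) (hJ : ∀ x, J (J x) = -x) (hi : ∀ x, inner ℝ x (J x) = 0)
    (hn : ∀ x, ‖J x‖ = ‖x‖) (t : ℝ) : E ≃ₗᵢ[ℝ] E where
  toFun x := Real.cos t • x + Real.sin t • J x
  map_add' x y := by simp only [map_add, smul_add]; abel
  map_smul' c x := by
    simp only [map_smul, smul_add, RingHom.id_apply, smul_comm c]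
  invFun x := Real.cos t • x - Real.sin t • J x
  left_inv x := by
    simp only [map_add, map_smul, hJ, smul_add, smul_neg, smul_smul]
    have := Real.cos_sq_add_sin_sq t
    calc _ = (Real.cos t * Real.cos t + Real.sin t * Real.sin t) • x
          + (Real.cos t * Real.sin t - Real.sin t * Real.cos t) • J x := by module
      _ = x := by
          rw [show Real.cos t * Real.cos t + Real.sin t * Real.sin t = 1 by nlinarith]
          rw [show Real.cos t * Real.sin t - Real.sin t * Real.cos t = 0 by ring]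
          simp
  right_inv x := by
    simp only [map_sub, map_smul, hJ, smul_sub, smul_neg, smul_smul]
    have := Real.cos_sq_add_sin_sq t
    calc _ = (Real.cos t * Real.cos t + Real.sin t * Real.sin t) • x
          + (-(Real.cos t * Real.sin t) + Real.sin t * Real.cos t) • J x := by module
      _ = x := by
          rw [show Real.cos t * Real.cos t + Real.sin t * Real.sin t = 1 by nlinarith]
          rw [show -(Real.cos t * Real.sin t) + Real.sin t * Real.cos t = 0 by ring]
          simp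
  norm_map' x := by
    have h1 : ‖Real.cos t • x + Real.sin t • J x‖ ^ 2 = ‖x‖ ^ 2 := by
      rw [@norm_add_sq_real]
      rw [norm_smul, norm_smul, inner_smul_left, inner_smul_right, hi, hn]
      have := Real.cos_sq_add_sin_sq t
      simp only [mul_zero, add_zero, mul_pow, Real.norm_eq_abs, sq_abs]
      rw [← add_mul, this, one_mul]
    have h2 := (sq_eq_sq₀ (norm_nonneg _) (norm_nonneg _)).1 h1
    exact h2

lemma rot_apply (J : E →L[ℝ] E) (hJ : ∀ x, J (J x) = -x) (hi : ∀ x, inner ℝ x (J x) = 0)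
    (hn : ∀ x, ‖J x‖ = ‖x‖) (t : ℝ) (x : E) :
    rot J hJ hi hn t x = Real.cos t • x + Real.sin t • J x := rfl

/-- The curve `t ↦ cos t x + sin t Jx` has velocity `Jx` at `0`. -/
lemma hasDerivAt_rot (J : E →L[ℝ] E) (x : E) :
    HasDerivAt (fun t : ℝ => Real.cos t • x + Real.sin t • J x) (J x) 0 := by
  have h1 : HasDerivAt (fun t : ℝ => Real.cos t • x) ((-Real.sin 0) • x) 0 :=
    (Real.hasDerivAt_cos 0).smul_const x
  have h2 : HasDerivAt (fun t : ℝ => Real.sin t • J x) ((Real.cos 0) • J x) 0 :=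
    (Real.hasDerivAt_sin 0).smul_const (J x)
  have h3 := h1.add h2
  refine h3.congr_deriv ?_
  simp

/-- The integral over the sphere of the derivative of a function along a Hopf field vanishes. -/
lemma integral_killing (J : E →L[ℝ] E) (hJ : ∀ x, J (J x) = -x) (hi : ∀ x, inner ℝ x (J x) = 0)
    (hn : ∀ x, ‖J x‖ = ‖x‖) (f : E → ℝ) (hf : ContDiff ℝ 1 f) :
    ∫ x : sphere (0 : E) 1, fderiv ℝ f (x : E) (J (x : E)) ∂mu = 0 := by
  have hG : ContDiff ℝ 1 (fun p : ℝ × E => f (Real.cos p.1 • p.2 + Real.sin p.1 • J p.2)) := by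
    refine hf.comp ?_
    have h1 : ContDiff ℝ 1 (fun p : ℝ × E => Real.cos p.1) := Real.contDiff_cos.comp contDiff_fst
    have h2 : ContDiff ℝ 1 (fun p : ℝ × E => Real.sin p.1) := Real.contDiff_sin.comp contDiff_fst
    exact (h1.smul contDiff_snd).add (h2.smul (J.contDiff.comp contDiff_snd))
  have h := hasDerivAt_sphere _ hG
  have hconst : (fun s : ℝ => ∫ x : sphere (0 : E) 1,
      (fun p : ℝ × E => f (Real.cos p.1 • p.2 + Real.sin p.1 • J p.2)) (s, (x : E)) ∂mu)
      = fun _ => ∫ x : sphere (0 : E) 1, f (x : E) ∂mu := by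
    funext s
    exact integral_sph (rot J hJ hi hn s) (fun x => f (x : E))
  rw [hconst] at h
  have h0 := h.unique (hasDerivAt_const (0 : ℝ) _)
  rw [← h0]
  refine integral_congr_ae (Filter.Eventually.of_forall fun x => ?_)
  show fderiv ℝ f (x : E) (J (x : E)) = _
  have hd : Differentiable ℝ (fun p : ℝ × E => f (Real.cos p.1 • p.2 + Real.sin p.1 • J p.2)) :=
    hG.differentiable (by norm_num)
  have h1 := (hd (0, (x : E))).hasFDerivAt
  have h2 : HasDerivAt (fun s : ℝ => (s, (x : E))) ((1 : ℝ), (0 : E)) 0 :=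
    (hasDerivAt_id (0:ℝ)).prodMk (hasDerivAt_const (0:ℝ) (x : E))
  have h3 := h1.comp_hasDerivAt (0 : ℝ) h2
  have h4 : HasFDerivAt f (fderiv ℝ f (x : E)) (x : E) :=
    (hf.differentiable (by norm_num) _).hasFDerivAt
  have h5 : HasDerivAt (fun t : ℝ => f (Real.cos t • (x : E) + Real.sin t • J (x : E)))
      (fderiv ℝ f (x : E) (J (x : E))) 0 := by
    have h6 := hasDerivAt_rot J (x : E)
    have h4' : HasFDerivAt f (fderiv ℝ f (x : E))
        (Real.cos 0 • (x : E) + Real.sin 0 • J (x : E)) := by simpa using h4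
    exact h4'.comp_hasDerivAt (0 : ℝ) h6
  exact h5.unique h3

end Pool.Agent.V11193.MV
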