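import Pool.Agent.V11193.MV.Field

set_option autoImplicit false
open MeasureTheory Set Metric
open scoped Pointwise Topology

namespace Pool.Agent.V11193.MV

/-- Matrix entry of the spatial derivative in the moving frame. -/
noncomputable def ent (P Q : E →L[ℝ] E) (Ψ : ℝ × E → E) (p : ℝ × E) : ℝ :=
  inner ℝ (P p.2) (fderiv ℝ Ψ p (0, Q p.2))

/-- The variation field. -/
noncomputable def eta (Ψ : ℝ × E → E) (x : E) : E := fderiv ℝ Ψ (0, x) (1, 0)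

section
variable (Ψ : ℝ × E → E) (hΨ : ContDiff ℝ ((⊤ : ℕ∞) : WithTop ℕ∞) Ψ)
include hΨ

lemma contDiff_dΨ : ContDiff ℝ ((⊤ : ℕ∞) : WithTop ℕ∞) (fderiv ℝ Ψ) :=
  hΨ.fderiv_right (m := ((⊤ : ℕ∞) : WithTop ℕ∞)) (by simp)

lemma contDiff_ent (P Q : E →L[ℝ] E) : ContDiff ℝ 1 (ent P Q Ψ) := by
  unfold ent
  have h1 : ContDiff ℝ 1 (fun p : ℝ × E => P p.2) := P.contDiff.comp contDiff_snd
  have h2 : ContDiff ℝ 1 (fderiv ℝ Ψ) := (contDiff_dΨ Ψ hΨ).of_le (by simp)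
  have h3 : ContDiff ℝ 1 (fun p : ℝ × E => ((0 : ℝ), Q p.2)) :=
    contDiff_const.prodMk (Q.contDiff.comp contDiff_snd)
  exact h1.inner ℝ (h2.clm_apply h3)

lemma contDiff_eta : ContDiff ℝ 1 (eta Ψ) := by
  unfold eta
  have h2 : ContDiff ℝ 1 (fderiv ℝ Ψ) := (contDiff_dΨ Ψ hΨ).of_le (by simp)
  have h3 : ContDiff ℝ 1 (fun x : E => ((0 : ℝ), x)) := contDiff_const.prodMk contDiff_id
  exact (h2.comp h3).clm_apply contDiff_const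

lemma fderiv_slice (s : ℝ) (x v : E) :
    fderiv ℝ (fun y => Ψ (s, y)) x v = fderiv ℝ Ψ (s, x) (0, v) := by
  have h1 : HasFDerivAt Ψ (fderiv ℝ Ψ (s, x)) (s, x) :=
    (hΨ.differentiable (by simp) (s, x)).hasFDerivAt
  have h2 : HasFDerivAt (fun y : E => (s, y)) (ContinuousLinearMap.inr ℝ ℝ E) x :=
    hasFDerivAt_prodMk_right s x
  have h3 := h1.comp x h2
  have h4 : fderiv ℝ (fun y => Ψ (s, y)) x = (fderiv ℝ Ψ (s, x)).comp (ContinuousLinearMap.inr ℝ ℝ E) :=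
    h3.fderiv
  rw [h4]
  simp

lemma hasDerivAt_ent (P Q : E →L[ℝ] E) (x : E) :
    HasDerivAt (fun s : ℝ => ent P Q Ψ (s, x)) (inner ℝ (P x) (fderiv ℝ (eta Ψ) x (Q x))) 0 := by
  have hd : Differentiable ℝ (fderiv ℝ Ψ) := (contDiff_dΨ Ψ hΨ).differentiable (by simp)
  have h1 : HasFDerivAt (fderiv ℝ Ψ) (fderiv ℝ (fderiv ℝ Ψ) (0, x)) (0, x) := (hd _).hasFDerivAt
  have h2 : HasDerivAt (fun s : ℝ => (s, x)) ((1 : ℝ), (0 : E)) 0 :=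
    (hasDerivAt_id (0:ℝ)).prodMk (hasDerivAt_const (0:ℝ) x)
  have h3 : HasDerivAt (fun s : ℝ => fderiv ℝ Ψ (s, x)) (fderiv ℝ (fderiv ℝ Ψ) (0, x) (1, 0)) 0 :=
    h1.comp_hasDerivAt (0:ℝ) h2
  have h4 : HasDerivAt (fun s : ℝ => fderiv ℝ Ψ (s, x) (0, Q x))
      (fderiv ℝ (fderiv ℝ Ψ) (0, x) (1, 0) (0, Q x)) 0 := by
    have := h3.clm_apply (hasDerivAt_const (0:ℝ) ((0:ℝ), Q x))
    simpa using this
  have h5 : HasDerivAt (fun s : ℝ => (inner ℝ (P x) (fderiv ℝ Ψ (s, x) (0, Q x)) : ℝ))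
      (inner ℝ (P x) (fderiv ℝ (fderiv ℝ Ψ) (0, x) (1, 0) (0, Q x))) 0 := by
    have := (hasDerivAt_const (0:ℝ) (P x)).inner ℝ h4
    simpa using this
  have h6 : fderiv ℝ (eta Ψ) x (Q x) = fderiv ℝ (fderiv ℝ Ψ) (0, x) (0, Q x) (1, 0) := by
    have a1 : HasFDerivAt (fun y : E => fderiv ℝ Ψ (0, y))
        ((fderiv ℝ (fderiv ℝ Ψ) (0, x)).comp (ContinuousLinearMap.inr ℝ ℝ E)) x :=
      h1.comp x (hasFDerivAt_prodMk_right (0:ℝ) x)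
    have a2 := a1.clm_apply (hasFDerivAt_const ((1:ℝ), (0:E)) x)
    have a3 : fderiv ℝ (eta Ψ) x = _ := a2.fderiv
    rw [a3]
    simp
  have hsym : IsSymmSndFDerivAt ℝ Ψ (0, x) :=
    (hΨ.contDiffAt).isSymmSndFDerivAt (by
      simp only [minSmoothness_of_isRCLikeNormedField]
      exact WithTop.coe_le_coe.2 le_top)
  rw [h6, hsym.eq]
  exact h5

lemma hasDerivAt_Ψ (x : E) : HasDerivAt (fun s : ℝ => Ψ (s, x)) (eta Ψ x) 0 := by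
  have h1 : HasFDerivAt Ψ (fderiv ℝ Ψ (0, x)) (0, x) :=
    (hΨ.differentiable (by simp) (0, x)).hasFDerivAt
  have h2 : HasDerivAt (fun s : ℝ => (s, x)) ((1 : ℝ), (0 : E)) 0 :=
    (hasDerivAt_id (0:ℝ)).prodMk (hasDerivAt_const (0:ℝ) x)
  exact h1.comp_hasDerivAt (0:ℝ) h2

end

/-- The integrand. -/
noncomputable def GG (Ψ : ℝ × E → E) (p : ℝ × E) : ℝ :=
  Real.sqrt (gram (ent J1 J1 Ψ p) (ent J1 J2 Ψ p) (ent J1 J3 Ψ p)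
    (ent J2 J1 Ψ p) (ent J2 J2 Ψ p) (ent J2 J3 Ψ p)
    (ent J3 J1 Ψ p) (ent J3 J2 Ψ p) (ent J3 J3 Ψ p))

lemma contDiff_GG (Ψ : ℝ × E → E) (hΨ : ContDiff ℝ ((⊤ : ℕ∞) : WithTop ℕ∞) Ψ) :
    ContDiff ℝ 1 (GG Ψ) := by
  unfold GG
  refine ContDiff.sqrt ?_ fun p => (gram_pos _ _ _ _ _ _ _ _ _).ne'
  unfold gram
  have e11 := contDiff_ent Ψ hΨ J1 J1
  have e12 := contDiff_ent Ψ hΨ J1 J2
  have e13 := contDiff_ent Ψ hΨ J1 J3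
  have e21 := contDiff_ent Ψ hΨ J2 J1
  have e22 := contDiff_ent Ψ hΨ J2 J2
  have e23 := contDiff_ent Ψ hΨ J2 J3
  have e31 := contDiff_ent Ψ hΨ J3 J1
  have e32 := contDiff_ent Ψ hΨ J3 J2
  have e33 := contDiff_ent Ψ hΨ J3 J3
  fun_prop

/-- Value of the frame entries at time `0`. -/
lemma ent_zero (Ψ : ℝ × E → E) (hΨ : ContDiff ℝ ((⊤ : ℕ∞) : WithTop ℕ∞) Ψ)
    (h0 : ∀ x ∈ sphere (0 : E) 1, Ψ (0, x) = sig x) (x : E) (hx : ‖x‖ = 1) :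
    ent J1 J1 Ψ (0, x) = 0 ∧ ent J1 J2 Ψ (0, x) = rr * (-3 * U1 x)
    ∧ ent J1 J3 Ψ (0, x) = rr * (-3 * U2 x)
    ∧ ent J2 J1 Ψ (0, x) = rr * (-U1 x) ∧ ent J2 J2 Ψ (0, x) = 0
    ∧ ent J2 J3 Ψ (0, x) = rr * (-3 * U3 x)
    ∧ ent J3 J1 Ψ (0, x) = rr * (-U2 x) ∧ ent J3 J2 Ψ (0, x) = rr * (3 * U3 x)
    ∧ ent J3 J3 Ψ (0, x) = 0 := by
  have hsl : Differentiable ℝ (fun y : E => Ψ (0, y)) :=
    (hΨ.differentiable (by simp)).comp (by fun_prop)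
  have hsg : Differentiable ℝ sig := (contDiff_sig (n := 1)).differentiable (by norm_num)
  have k1 : fderiv ℝ Ψ (0, x) (0, J1 x) = rr • ((U3 x • J1 (J1 x) + (0:ℝ) • J1 x)
      - (U2 x • J2 (J1 x) + (2 * U1 x) • J2 x) + (U1 x • J3 (J1 x) + (-2 * U2 x) • J3 x)) := by
    rw [← fderiv_slice Ψ hΨ, fderiv_eq_of_eqOn J1 J11 i01 n1 _ sig hsl hsg h0 x hx]
    exact hsig x _ _ _ _ (hU11 x) (hU21 x) (hU31 x)
  have k2 : fderiv ℝ Ψ (0, x) (0, J2 x) = rr • ((U3 x • J1 (J2 x) + (-2 * U1 x) • J1 x)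
      - (U2 x • J2 (J2 x) + (0:ℝ) • J2 x) + (U1 x • J3 (J2 x) + (2 * U3 x) • J3 x)) := by
    rw [← fderiv_slice Ψ hΨ, fderiv_eq_of_eqOn J2 J22 i02 n2 _ sig hsl hsg h0 x hx]
    exact hsig x _ _ _ _ (hU12 x) (hU22 x) (hU32 x)
  have k3 : fderiv ℝ Ψ (0, x) (0, J3 x) = rr • ((U3 x • J1 (J3 x) + (-2 * U2 x) • J1 x)
      - (U2 x • J2 (J3 x) + (2 * U3 x) • J2 x) + (U1 x • J3 (J3 x) + (0:ℝ) • J3 x)) := by
    rw [← fderiv_slice Ψ hΨ, fderiv_eq_of_eqOn J3 J33 i03 n3 _ sig hsl hsg h0 x hx]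
    exact hsig x _ _ _ _ (hU13 x) (hU23 x) (hU33 x)
  have c1 : inner ℝ (J1 x) x = (0:ℝ) := (real_inner_comm _ _).trans (i01 x)
  have c2 : inner ℝ (J2 x) x = (0:ℝ) := (real_inner_comm _ _).trans (i02 x)
  have c3 : inner ℝ (J3 x) x = (0:ℝ) := (real_inner_comm _ _).trans (i03 x)
  have c21 : inner ℝ (J2 x) (J1 x) = (0:ℝ) := (real_inner_comm _ _).trans (i12 x)
  have c31 : inner ℝ (J3 x) (J1 x) = (0:ℝ) := (real_inner_comm _ _).trans (i13 x)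
  have c32 : inner ℝ (J3 x) (J2 x) = (0:ℝ) := (real_inner_comm _ _).trans (i23 x)
  have s1 : inner ℝ (J1 x) (J1 x) = (1:ℝ) := by rw [real_inner_self_eq_norm_sq, n1, hx]; norm_num
  have s2 : inner ℝ (J2 x) (J2 x) = (1:ℝ) := by rw [real_inner_self_eq_norm_sq, n2, hx]; norm_num
  have s3 : inner ℝ (J3 x) (J3 x) = (1:ℝ) := by rw [real_inner_self_eq_norm_sq, n3, hx]; norm_num
  rw [J11, J21, J31] at k1
  rw [J12, J22, J32] at k2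
  rw [J13, J23, J33] at k3
  simp only [ent, k1, k2, k3, inner_add_right, inner_sub_right, inner_smul_right, inner_neg_right,
    c1, c2, c3, c21, c31, c32, s1, s2, s3, i12, i13, i23]
  refine ⟨?_, ?_, ?_, ?_, ?_, ?_, ?_, ?_, ?_⟩ <;> ring

/-- The pointwise first variation. -/
lemma hasDerivAt_GG (Ψ : ℝ × E → E) (hΨ : ContDiff ℝ ((⊤ : ℕ∞) : WithTop ℕ∞) Ψ)
    (h0 : ∀ x ∈ sphere (0 : E) 1, Ψ (0, x) = sig x) (x : E) (hx : ‖x‖ = 1) :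
    fderiv ℝ (GG Ψ) (0, x) (1, 0)
      = W x * (-(1 + 2 * U3 x ^ 2) * U1 x * inner ℝ (J1 x) (fderiv ℝ (eta Ψ) x (J2 x))
        - (1 + 2 * U3 x ^ 2) * U2 x * inner ℝ (J1 x) (fderiv ℝ (eta Ψ) x (J3 x))
        - U1 x * inner ℝ (J2 x) (fderiv ℝ (eta Ψ) x (J1 x))
        + 2 * U1 x * U2 x * U3 x * inner ℝ (J2 x) (fderiv ℝ (eta Ψ) x (J2 x))
        - U3 x * (1 + 2 * U3 x ^ 2 + 2 * U1 x ^ 2) * inner ℝ (J2 x) (fderiv ℝ (eta Ψ) x (J3 x))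
        - U2 x * inner ℝ (J3 x) (fderiv ℝ (eta Ψ) x (J1 x))
        + U3 x * (1 + 2 * U3 x ^ 2 + 2 * U2 x ^ 2) * inner ℝ (J3 x) (fderiv ℝ (eta Ψ) x (J2 x))
        - 2 * U1 x * U2 x * U3 x * inner ℝ (J3 x) (fderiv ℝ (eta Ψ) x (J3 x))) := by
  obtain ⟨v11, v12, v13, v21, v22, v23, v31, v32, v33⟩ := ent_zero Ψ hΨ h0 x hx
  have hg := gram_deriv rr (U1 x) (U2 x) (U3 x) _ _ _ _ _ _ _ _ _ rr_sq (U_sq x hx) _ _ _ _ _ _ _ _ _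
    (hasDerivAt_ent Ψ hΨ J1 J1 x) (hasDerivAt_ent Ψ hΨ J1 J2 x) (hasDerivAt_ent Ψ hΨ J1 J3 x)
    (hasDerivAt_ent Ψ hΨ J2 J1 x) (hasDerivAt_ent Ψ hΨ J2 J2 x) (hasDerivAt_ent Ψ hΨ J2 J3 x)
    (hasDerivAt_ent Ψ hΨ J3 J1 x) (hasDerivAt_ent Ψ hΨ J3 J2 x) (hasDerivAt_ent Ψ hΨ J3 J3 x)
    v11 v12 v13 v21 v22 v23 v31 v32 v33
  have hg2 := hg.sqrt (gram_pos _ _ _ _ _ _ _ _ _).ne'
  rw [v11, v12, v13, v21, v22, v23, v31, v32, v33,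
    gram_val rr (U1 x) (U2 x) (U3 x) rr_sq (U_sq x hx)] at hg2
  have hd : Differentiable ℝ (GG Ψ) := (contDiff_GG Ψ hΨ).differentiable (by norm_num)
  have h2 : HasDerivAt (fun s : ℝ => (s, x)) ((1 : ℝ), (0 : E)) 0 :=
    (hasDerivAt_id (0:ℝ)).prodMk (hasDerivAt_const (0:ℝ) x)
  have h3 : HasDerivAt (fun s : ℝ => GG Ψ (s, x)) (fderiv ℝ (GG Ψ) (0, x) (1, 0)) 0 :=
    HasFDerivAt.comp_hasDerivAt (l := GG Ψ) (f := fun s : ℝ => (s, x)) (0:ℝ)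
      ((hd (0, x)).hasFDerivAt) h2
  rw [h3.unique hg2]
  have hD : 0 < 1 + 2 * U3 x ^ 2 := by positivity
  have hs : Real.sqrt (16 / 3 * (1 + 2 * U3 x ^ 2)) = 4 * rr * Real.sqrt (1 + 2 * U3 x ^ 2) := by
    rw [Real.sqrt_mul (by norm_num)]
    congr 1
    rw [Real.sqrt_eq_iff_mul_self_eq (by norm_num) (by have := rr_pos; positivity)]
    nlinarith [rr_sq]
  rw [hs]
  unfold W
  have hr := rr_pos
  have hq : 0 < Real.sqrt (1 + 2 * U3 x ^ 2) := by positivity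
  field_simp
  ring

end Pool.Agent.V11193.MV
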